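import Mathlib

set_option autoImplicit false

/-!
# Farthest points of a compact convex set
-/

namespace Pool.Agent.Lib.H38.Ehr

open MeasureTheory Set Filter Topology

variable {n : ℕ}

/-- Euclidean square -/
def sq (x : Fin n → ℝ) : ℝ := ∑ i, x i ^ 2

/-- scalar product -/
def dot (x y : Fin n → ℝ) : ℝ := ∑ i, x i * y i

lemma sq_nonneg' (x : Fin n → ℝ) : 0 ≤ sq x := Finset.sum_nonneg fun i _ => sq_nonneg _

lemma sq_eq_zero' {x : Fin n → ℝ} (h : sq x ≤ 0) : x = 0 := by
  have h0 : sq x = 0 := le_antisymm h (sq_nonneg' x)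
  have h1 := (Finset.sum_eq_zero_iff_of_nonneg (fun i _ => sq_nonneg (x i))).1 h0
  funext i
  have := h1 i (Finset.mem_univ i)
  simpa using this

lemma dot_add (w x y : Fin n → ℝ) : dot w (x + y) = dot w x + dot w y := by
  unfold dot; rw [← Finset.sum_add_distrib]; exact Finset.sum_congr rfl fun i _ => by simp; ring

lemma dot_sub (w x y : Fin n → ℝ) : dot w (x - y) = dot w x - dot w y := by
  unfold dot; rw [← Finset.sum_sub_distrib]; exact Finset.sum_congr rfl fun i _ => by simp; ring

lemma dot_smul (w x : Fin n → ℝ) (c : ℝ) : dot w (c • x) = c * dot w x := by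
  unfold dot; rw [Finset.mul_sum]; exact Finset.sum_congr rfl fun i _ => by simp; ring

lemma sq_sub (x y : Fin n → ℝ) : sq (x - y) = sq x - 2 * dot x y + sq y := by
  unfold sq dot
  rw [Finset.mul_sum, ← Finset.sum_sub_distrib, ← Finset.sum_add_distrib]
  exact Finset.sum_congr rfl fun i _ => by simp; ring

lemma continuous_sq : Continuous (sq (n := n)) := by
  unfold sq; fun_prop

/-- `w` exposes `z` with quadratic growth -/
def Exposes (K : Set (Fin n → ℝ)) (w z : Fin n → ℝ) : Prop :=
  ∀ x ∈ K, dot w z + sq (x - z) / 2 ≤ dot w x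

/-- points of `K` exposed with quadratic growth -/
def Far (K : Set (Fin n → ℝ)) : Set (Fin n → ℝ) := {z | z ∈ K ∧ ∃ w, Exposes K w z}

/-- a farthest point from `y` is in `Far K` -/
lemma mem_far {K : Set (Fin n → ℝ)} {z y : Fin n → ℝ} (hz : z ∈ K)
    (h : ∀ x ∈ K, sq (x - y) ≤ sq (z - y)) : z ∈ Far K := by
  refine ⟨hz, y - z, fun x hx => ?_⟩
  have h1 := h x hx
  have e : sq (x - y) = sq (z - y) - 2 * (dot (y - z) x - dot (y - z) z) + sq (x - z) := by
    unfold sq dot
    rw [← Finset.sum_sub_distrib, Finset.mul_sum, ← Finset.sum_sub_distrib,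
      ← Finset.sum_add_distrib]
    exact Finset.sum_congr rfl fun i _ => by simp; ring
  linarith

/-- points of `Far K` are extreme -/
lemma far_extreme {K : Set (Fin n → ℝ)} {z p y : Fin n → ℝ} (hz : z ∈ Far K) (hp : p ∈ K)
    (hy : y ∈ K) {s : ℝ} (hs0 : 0 < s) (hs1 : s < 1) (h : z = p + s • (y - p)) : p = z := by
  obtain ⟨-, w, hw⟩ := hz
  have h1 := hw p hp
  have h2 := hw y hy
  have h3 : dot w z = (1 - s) * dot w p + s * dot w y := by
    rw [h, dot_add, dot_smul, dot_sub]; ring
  have h4 := sq_nonneg' (y - z)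
  have h5 : sq (p - z) ≤ 0 := by
    have h6 := mul_le_mul_of_nonneg_left h1 (show (0 : ℝ) ≤ 1 - s by linarith)
    have h7 := mul_le_mul_of_nonneg_left h2 hs0.le
    have h8 : (1 - s) * (sq (p - z) / 2) ≤ 0 := by
      have h9 : 0 ≤ s * (sq (y - z) / 2) := by positivity
      nlinarith
    have h9 : 0 < 1 - s := by linarith
    by_contra hcon
    push Not at hcon
    have : 0 < (1 - s) * (sq (p - z) / 2) := by positivity
    linarith
  exact sub_eq_zero.1 (sq_eq_zero' h5)

lemma far_nonempty {K : Set (Fin n → ℝ)} (hK : IsCompact K) (hne : K.Nonempty) :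
    (Far K).Nonempty := by
  obtain ⟨z, hz, hmax⟩ := hK.exists_isMaxOn hne (continuous_sq.continuousOn (s := K))
  exact ⟨z, mem_far (y := 0) hz fun x hx => by simpa using hmax hx⟩

/-- Far points in every half space that meets `K`. -/
lemma exists_far_lt {K : Set (Fin n → ℝ)} (hK : IsCompact K) {x : Fin n → ℝ} (hx : x ∈ K)
    (f : (Fin n → ℝ) →L[ℝ] ℝ) {u : ℝ} (hu : f x < u) : ∃ z ∈ Far K, f z < u := by
  -- represent f
  set v : Fin n → ℝ := fun i => f (Pi.single i 1) with hv
  have hfv : ∀ z, f z = dot v z := by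
    intro z
    have h1 : z = ∑ i, z i • (Pi.single i (1 : ℝ) : Fin n → ℝ) := by
      funext j
      simp [Finset.sum_apply, Pi.single_apply]
    conv_lhs => rw [h1]
    rw [map_sum]
    unfold dot
    exact Finset.sum_congr rfl fun i _ => by simp [hv, mul_comm]
  obtain ⟨z0, -, hmax⟩ := hK.exists_isMaxOn ⟨x, hx⟩ (continuous_sq.continuousOn (s := K))
  set M := sq z0 with hM
  have hM0 : 0 ≤ M := sq_nonneg' _
  set R : ℝ := (M + 1) / (u - f x) with hR
  have hgap : 0 < u - f x := by linarith
  have hRpos : 0 < R := by positivity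
  have hcont : Continuous fun z : Fin n → ℝ => sq (z - R • v) :=
    continuous_sq.comp (by fun_prop)
  obtain ⟨z, hz, hzmax⟩ := hK.exists_isMaxOn ⟨x, hx⟩ (hcont.continuousOn (s := K))
  refine ⟨z, mem_far (y := R • v) hz fun y hy => hzmax hy, ?_⟩
  have h1 : sq (x - R • v) ≤ sq (z - R • v) := hzmax hx
  have h2 : ∀ y, sq (y - R • v) = sq y - 2 * R * f y + sq (R • v) := by
    intro y
    rw [sq_sub, hfv]
    have : dot y (R • v) = R * dot v y := by
      rw [dot_smul]
      unfold dot
      congr 1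
      exact Finset.sum_congr rfl fun i _ => mul_comm _ _
    rw [this]; ring
  rw [h2, h2] at h1
  have h3 : sq z ≤ M := hmax hz
  have h4 := sq_nonneg' x
  have h5 : 2 * R * (f z - f x) ≤ M := by nlinarith
  have h6 : R * (u - f x) = M + 1 := by rw [hR]; field_simp
  by_contra hcon
  push Not at hcon
  have h7 : R * (u - f x) ≤ R * (f z - f x) := by gcongr
  have h8 : 0 ≤ R * (f z - f x) := le_trans (by positivity) h7
  nlinarith

/-- If `Far K` is finite then `K` is its convex hull. -/
lemma eq_convexHull_far {K : Set (Fin n → ℝ)} (hK : IsCompact K) (hconv : Convex ℝ K)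
    (hfin : (Far K).Finite) : K = convexHull ℝ (Far K) := by
  refine Subset.antisymm ?_ (convexHull_min (fun z hz => hz.1) hconv)
  intro x hx
  by_contra hcon
  obtain ⟨f, u, hfu, hb⟩ := geometric_hahn_banach_point_closed (convex_convexHull ℝ (Far K))
    ((hfin.isCompact_convexHull ℝ).isClosed) hcon
  obtain ⟨z, hz, hzu⟩ := exists_far_lt hK hx f hfu
  have := hb z (subset_convexHull ℝ _ hz)
  linarith

end Pool.Agent.Lib.H38.Ehr
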