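import Mathlib
import Pool.Agent.Lib.H38.Ehr.Far

set_option autoImplicit false

/-!
# A convex body that is a cone from each of its far points is a simplex
-/

namespace Pool.Agent.Lib.H38.Ehr

open MeasureTheory Set Filter Topology

variable {n : ℕ}

/-- certificate of the cone property at `p` -/
structure Cert (K : Set (Fin n → ℝ)) (T : ℝ) (p : Fin n → ℝ) (L : (Fin n → ℝ) →ᵃ[ℝ] ℝ) : Prop where
  nonneg : ∀ x ∈ K, 0 ≤ L x
  le : ∀ x ∈ K, L x ≤ T
  zero : L p = 0
  cone : ∀ s : ℝ, 0 < s → s < 1 → ∀ x ∈ K, L x ≤ s * T → ∃ y ∈ K, x = p + s • (y - p)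
  origin : L 0 ≤ n

lemma Cert.eq_of_ne {K : Set (Fin n → ℝ)} {T : ℝ} (hT : 0 < T) {p q : Fin n → ℝ}
    {L : (Fin n → ℝ) →ᵃ[ℝ] ℝ} (h : Cert K T p L) (hp : p ∈ K) (hq : q ∈ Far K) (hne : q ≠ p) :
    L q = T := by
  have h0 := h.nonneg q hq.1
  have h1 := h.le q hq.1
  by_contra hcon
  have hlt : L q < T := lt_of_le_of_ne h1 hcon
  set s : ℝ := (L q / T + 1) / 2 with hs
  have h2 : L q / T < 1 := by rwa [div_lt_one hT]
  have h3 : 0 ≤ L q / T := by positivity
  have hs0 : 0 < s := by rw [hs]; linarith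
  have hs1 : s < 1 := by rw [hs]; linarith
  have h4 : L q ≤ s * T := by
    have : L q / T ≤ s := by rw [hs]; linarith
    calc L q = L q / T * T := by field_simp
      _ ≤ s * T := by gcongr
  obtain ⟨y, hy, hqy⟩ := h.cone s hs0 hs1 q hq.1 h4
  exact hne (far_extreme hq hp hy hs0 hs1 hqy).symm

lemma affine_decomp (L : (Fin n → ℝ) →ᵃ[ℝ] ℝ) (x : Fin n → ℝ) : L x = L.linear x + L 0 := by
  have := L.map_vadd 0 x
  simpa using this

theorem simplex (hn : 1 ≤ n) {K : Set (Fin n → ℝ)} (hK : IsCompact K) (hconv : Convex ℝ K)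
    (h0 : (0 : Fin n → ℝ) ∈ interior K) {T : ℝ} (hT : 0 < T)
    (hc : ∀ p ∈ Far K, ∃ L : (Fin n → ℝ) →ᵃ[ℝ] ℝ, Cert K T p L) :
    ∃ b : AffineBasis (Fin (n + 1)) ℝ (Fin n → ℝ), K = convexHull ℝ (range b) ∧ T ≤ n + 1 ∧
      ∀ i, T * (1 - b.coord i 0) ≤ n := by
  choose! L hL using hc
  have hLT : ∀ p ∈ Far K, ∀ q ∈ Far K, q ≠ p → L p q = T := fun p hp q hq hne =>
    (hL p hp).eq_of_ne hT hp.1 hq hne
  -- affine independence
  have hind : AffineIndependent ℝ (fun x : Far K => (x : Fin n → ℝ)) := by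
    rw [affineIndependent_iff]
    intro s w hw0 hw1 e he
    have h1 : ∑ x ∈ s, w x * L e x = 0 := by
      have h2 : ∀ x ∈ s, w x * L e x = (L e).linear (w x • (x : Fin n → ℝ)) + w x * L e 0 := by
        intro x _
        rw [affine_decomp (L e) x, map_smul, smul_eq_mul]; ring
      rw [Finset.sum_congr rfl h2, Finset.sum_add_distrib, ← map_sum, hw1, map_zero,
        ← Finset.sum_mul, hw0]
      ring
    have h3 : ∑ x ∈ s, w x * L e x = ∑ x ∈ s, (w x * T - if x = e then w x * T else 0) := by
      refine Finset.sum_congr rfl fun x _ => ?_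
      by_cases hxe : x = e
      · subst hxe
        rw [(hL x x.2).zero]; simp
      · rw [hLT e e.2 x x.2 (fun h => hxe (Subtype.ext h))]
        simp [hxe]
    rw [h3, Finset.sum_sub_distrib, ← Finset.sum_mul, hw0, Finset.sum_ite_eq', if_pos he] at h1
    have : w e * T = 0 := by linarith
    exact (mul_eq_zero.1 this).resolve_right hT.ne'
  have hfinite : Finite (Far K) := finite_of_fin_dim_affineIndependent ℝ hind
  have hFin : (Far K).Finite := Set.toFinite _
  have hKhull := eq_convexHull_far hK hconv hFin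
  have hspan : affineSpan ℝ (Far K) = ⊤ := by
    rw [← interior_convexHull_nonempty_iff_affineSpan_eq_top, ← hKhull]
    exact ⟨0, h0⟩
  have : Fintype (Far K) := Fintype.ofFinite _
  have hrange : range (fun x : Far K => (x : Fin n → ℝ)) = Far K := Subtype.range_coe
  have hcard : Fintype.card (Far K) = n + 1 := by
    have := (hind.affineSpan_eq_top_iff_card_eq_finrank_add_one).1 (by rw [hrange]; exact hspan)
    rwa [Module.finrank_fin_fun] at this
  let e : Fin (n + 1) ≃ Far K := (Fintype.equivFinOfCardEq hcard).symm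
  have hre : range (fun i => (e i : Fin n → ℝ)) = Far K :=
    (e.surjective.range_comp (fun x : Far K => (x : Fin n → ℝ))).trans hrange
  let b : AffineBasis (Fin (n + 1)) ℝ (Fin n → ℝ) :=
    ⟨fun i => (e i : Fin n → ℝ), hind.comp_embedding e.toEmbedding, by rw [hre]; exact hspan⟩
  have hb : ∀ i, b i = (e i : Fin n → ℝ) := fun i => rfl
  have hrb : range b = Far K := hre
  -- values of `L`
  have hLb : ∀ i x, L (b i) x = T * (1 - b.coord i x) := by
    intro i x
    have hbi : b i ∈ Far K := (e i).2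
    have h1 : x = ∑ j, b.coord j x • b j := (b.linear_combination_coord_eq_self x).symm
    have hsum := b.sum_coord_apply_eq_one x
    have h2 : L (b i) x = ∑ j, b.coord j x * L (b i) (b j) := by
      rw [affine_decomp (L (b i)) x]
      conv_lhs => rw [h1]
      rw [map_sum]
      have h3 : ∀ j, b.coord j x * L (b i) (b j) =
          (L (b i)).linear (b.coord j x • b j) + b.coord j x * L (b i) 0 := by
        intro j
        rw [affine_decomp (L (b i)) (b j), map_smul, smul_eq_mul]; ring
      rw [Finset.sum_congr rfl fun j _ => h3 j, Finset.sum_add_distrib, ← Finset.sum_mul, hsum,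
        one_mul]
    have h4 : ∀ j, b.coord j x * L (b i) (b j) =
        b.coord j x * T - if j = i then b.coord j x * T else 0 := by
      intro j
      by_cases hji : j = i
      · subst hji
        rw [(hL _ hbi).zero]; simp
      · have hne : b j ≠ b i := fun h => hji (b.ind.injective h)
        rw [hLT _ hbi (b j) (e j).2 hne]; simp [hji]
    rw [h2, Finset.sum_congr rfl fun j _ => h4 j, Finset.sum_sub_distrib, ← Finset.sum_mul, hsum,
      Finset.sum_ite_eq' Finset.univ i, if_pos (Finset.mem_univ i)]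
    ring
  have horig : ∀ i, T * (1 - b.coord i 0) ≤ n := by
    intro i
    rw [← hLb]
    exact (hL _ (e i).2).origin
  refine ⟨b, by rw [hrb]; exact hKhull, ?_, horig⟩
  have hs : ∑ i, T * (1 - b.coord i 0) ≤ ∑ i : Fin (n + 1), (n : ℝ) :=
    Finset.sum_le_sum fun i _ => horig i
  rw [← Finset.mul_sum, Finset.sum_sub_distrib, b.sum_coord_apply_eq_one] at hs
  simp only [Finset.sum_const, Finset.card_univ, Fintype.card_fin, nsmul_eq_mul, mul_one] at hs
  push_cast at hs
  have hn' : (0 : ℝ) < n := by exact_mod_cast hn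
  have : T * n ≤ (n + 1) * n := by linarith
  exact le_of_mul_le_mul_right this hn'

end Pool.Agent.Lib.H38.Ehr
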