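import Mathlib

set_option autoImplicit false

/-!
# Lattice cube packings of covolume one are tilings; the unit vectors lie in the lattice
-/

namespace Pool.Agent.Lib.H38.Ehr

open MeasureTheory Set Filter Topology Matrix

variable {n : ℕ}

/-- integer vector as a real vector -/
def cast (z : Fin n → ℤ) : Fin n → ℝ := fun j => (z j : ℝ)

lemma cast_sub (z w : Fin n → ℤ) : cast (z - w) = cast z - cast w := by
  funext j; simp [cast]

lemma cast_add (z w : Fin n → ℤ) : cast (z + w) = cast z + cast w := by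
  funext j; simp [cast]

lemma cast_neg (z : Fin n → ℤ) : cast (-z) = -cast z := by
  funext j; simp [cast]

lemma cast_zero : cast (0 : Fin n → ℤ) = 0 := by
  funext j; simp [cast]

lemma norm_cast' (z : Fin n → ℤ) : ‖cast z‖ = ‖z‖ := by
  have h1 : ∀ r : ℝ, 0 ≤ r → (‖cast z‖ ≤ r ↔ ‖z‖ ≤ r) := by
    intro r hr
    rw [pi_norm_le_iff_of_nonneg hr, pi_norm_le_iff_of_nonneg hr]
    simp [cast, Int.norm_eq_abs]
  exact le_antisymm ((h1 _ (norm_nonneg _)).2 le_rfl) ((h1 _ (norm_nonneg _)).1 le_rfl)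

lemma finite_bounded (A : Matrix (Fin n) (Fin n) ℝ) (hdet : A.det ≠ 0) (x : Fin n → ℝ) (R : ℝ) :
    {z : Fin n → ℤ | ∀ k, |(A *ᵥ cast z) k - x k| ≤ R}.Finite := by
  have hdet' : IsUnit A.det := isUnit_iff_ne_zero.2 hdet
  -- bound
  have hcont : Continuous (fun y : Fin n → ℝ => A⁻¹ *ᵥ y) := by
    exact Continuous.matrix_mulVec continuous_const continuous_id
  have hcomp : IsCompact {y : Fin n → ℝ | ∀ k, |y k - x k| ≤ R} := by
    have : {y : Fin n → ℝ | ∀ k, |y k - x k| ≤ R} = Set.pi univ (fun k => Metric.closedBall (x k) R) := by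
      ext y
      simp [Real.dist_eq]
    rw [this]
    exact isCompact_univ_pi fun k => isCompact_closedBall _ _
  obtain ⟨C, hC⟩ := (hcomp.image hcont).isBounded.exists_norm_le
  have hfin : (Metric.closedBall (0 : Fin n → ℤ) C).Finite :=
    (isCompact_closedBall (0 : Fin n → ℤ) C).finite_of_discrete
  refine hfin.subset ?_
  intro z hz
  rw [mem_closedBall_zero_iff, ← norm_cast']
  have h := hC (A⁻¹ *ᵥ (A *ᵥ cast z)) ⟨A *ᵥ cast z, hz, rfl⟩
  rwa [Matrix.mulVec_mulVec, Matrix.nonsing_inv_mul _ hdet', Matrix.one_mulVec] at h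

/-- elements of the standard lattice are integer vectors -/
lemma exists_cast {x : Fin n → ℝ} (hx : x ∈ Submodule.span ℤ (Set.range (Pi.basisFun ℝ (Fin n)))) :
    ∃ z : Fin n → ℤ, x = cast z := by
  have h := ((Pi.basisFun ℝ (Fin n)).mem_span_iff_repr_mem ℤ x).mp hx
  choose z hz using h
  refine ⟨z, ?_⟩
  funext i
  have := hz i
  simpa [cast] using this.symm

/-- Blichfeldt's theorem for `A ℤ^n` -/
lemma blichfeldt (A : Matrix (Fin n) (Fin n) ℝ) (hdet : |A.det| = 1) {S : Set (Fin n → ℝ)}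
    (hS : MeasurableSet S) (hvol : 1 < volume S) :
    ∃ z : Fin n → ℤ, z ≠ 0 ∧ ∃ s ∈ S, ∃ t ∈ S, s - t = A *ᵥ cast z := by
  have hdet0 : A.det ≠ 0 := by
    intro h; rw [h] at hdet; simp at hdet
  set f : (Fin n → ℝ) →ₗ[ℝ] (Fin n → ℝ) := Matrix.toLin' A with hf
  have hdetf : LinearMap.det f = A.det := by rw [hf, LinearMap.det_toLin']
  have hfc : Continuous f := f.continuous_of_finiteDimensional
  have hvol' : volume (f ⁻¹' S) = volume S := by
    rw [Measure.addHaar_preimage_linearMap _ (by rw [hdetf]; exact hdet0), hdetf, abs_inv, hdet]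
    simp
  have fund := ZSpan.isAddFundamentalDomain' (Pi.basisFun ℝ (Fin n)) (volume : Measure (Fin n → ℝ))
  have hF : volume (ZSpan.fundamentalDomain (Pi.basisFun ℝ (Fin n))) = 1 := by
    rw [ZSpan.fundamentalDomain_pi_basisFun, volume_pi, Measure.pi_pi]
    simp
  haveI : Countable (Submodule.span ℤ (Set.range (Pi.basisFun ℝ (Fin n)))).toAddSubgroup :=
    inferInstanceAs (Countable (Submodule.span ℤ (Set.range (Pi.basisFun ℝ (Fin n)))))
  obtain ⟨x, y, hxy, hnd⟩ := exists_pair_mem_lattice_not_disjoint_vadd fund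
    (s := f ⁻¹' S) (hfc.measurable hS).nullMeasurableSet (by rw [hF, hvol']; exact hvol)
  rw [Set.not_disjoint_iff] at hnd
  obtain ⟨v, ⟨s, hs, hsv⟩, ⟨t, ht, htv⟩⟩ := hnd
  obtain ⟨zx, hzx⟩ := exists_cast x.2
  obtain ⟨zy, hzy⟩ := exists_cast y.2
  have hsv' : (x : Fin n → ℝ) + s = v := hsv
  have htv' : (y : Fin n → ℝ) + t = v := htv
  have hst : s - t = cast (zy - zx) := by
    rw [cast_sub, ← hzx, ← hzy]
    have : (x : Fin n → ℝ) + s = y + t := hsv'.trans htv'.symm
    have h2 : s - t = (x + s) - t - x := by abel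
    rw [h2, this]; abel
  refine ⟨zy - zx, ?_, f s, hs, f t, ht, ?_⟩
  · intro h
    apply hxy
    have : zy = zx := sub_eq_zero.1 h
    apply Subtype.ext
    rw [hzx, hzy, this]
  · rw [← map_sub, hst, hf, Matrix.toLin'_apply]

/-- A lattice packing by unit cubes with covolume one covers every point. -/
theorem cube_cover (A : Matrix (Fin n) (Fin n) ℝ) (hdet : |A.det| = 1)
    (hpack : ∀ z : Fin n → ℤ, z ≠ 0 → ∃ k, 1 ≤ |(A *ᵥ cast z) k|) (x : Fin n → ℝ) :
    ∃ z : Fin n → ℤ, ∀ k, (A *ᵥ cast z) k ≤ x k ∧ x k < (A *ᵥ cast z) k + 1 := by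
  by_contra hcon
  push Not at hcon
  have hdet0 : A.det ≠ 0 := by
    intro h; rw [h] at hdet; simp at hdet
  have hfin := finite_bounded A hdet0 x 2
  -- choice of δ
  have hev : ∀ᶠ δ : ℝ in 𝓝[>] 0, (δ < 1 / 2) ∧ ∀ z ∈ {z : Fin n → ℤ | ∀ k, |(A *ᵥ cast z) k - x k| ≤ 2},
      ∀ k, x k < (A *ᵥ cast z) k → δ ≤ (A *ᵥ cast z) k - x k := by
    refine Filter.Eventually.and ?_ ?_
    · exact mem_nhdsWithin_of_mem_nhds (Iio_mem_nhds (by norm_num))
    · rw [Filter.eventually_all_finite hfin]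
      intro z _
      rw [Filter.eventually_all]
      intro k
      by_cases h : x k < (A *ᵥ cast z) k
      · filter_upwards [mem_nhdsWithin_of_mem_nhds (Iio_mem_nhds (show (0 : ℝ) < (A *ᵥ cast z) k - x k by linarith))] with δ hδ _
        exact le_of_lt hδ
      · exact Filter.Eventually.of_forall fun δ h' => absurd h' h
  obtain ⟨δ, ⟨hδ1, hδ2⟩, hδ0⟩ := (hev.and self_mem_nhdsWithin).exists
  have hδ0 : 0 < δ := hδ0
  set C : Set (Fin n → ℝ) := Set.pi univ fun _ => Ico 0 1 with hC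
  set Q : Set (Fin n → ℝ) := Set.pi univ fun k => Ico (x k) (x k + δ) with hQ
  have hCm : MeasurableSet C := MeasurableSet.univ_pi fun _ => measurableSet_Ico
  have hQm : MeasurableSet Q := MeasurableSet.univ_pi fun _ => measurableSet_Ico
  -- key: cube points and Q points are never congruent
  have key : ∀ z : Fin n → ℤ, ∀ q ∈ Q, ∀ c ∈ C, q - c ≠ A *ᵥ cast z := by
    intro z q hq c hc h
    have hq' : ∀ k, x k ≤ q k ∧ q k < x k + δ := fun k => hq k (mem_univ k)
    have hc' : ∀ k, 0 ≤ c k ∧ c k < 1 := fun k => hc k (mem_univ k)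
    have hk : ∀ k, (A *ᵥ cast z) k = q k - c k := fun k => by rw [← h]; rfl
    have hz : z ∈ {z : Fin n → ℤ | ∀ k, |(A *ᵥ cast z) k - x k| ≤ 2} := by
      intro k
      have h1 := hq' k; have h2 := hc' k
      rw [hk k, abs_le]
      constructor <;> linarith [h1.1, h1.2, h2.1, h2.2]
    obtain ⟨k, hk2⟩ := hcon z
    have h1 := hq' k; have h2 := hc' k
    by_cases h3 : (A *ᵥ cast z) k ≤ x k
    · have := hk2 h3
      rw [hk k] at this
      linarith [h1.1, h2.2]
    · push Not at h3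
      have := hδ2 z hz k h3
      rw [hk k] at this
      linarith [h1.2, h2.1]
  have hdisj : Disjoint C Q := by
    rw [Set.disjoint_left]
    intro c hc hq
    exact key 0 c hq c hc (by rw [cast_zero, Matrix.mulVec_zero, sub_self])
  have hvolC : volume C = 1 := by
    rw [hC, volume_pi, Measure.pi_pi]; simp
  have hvolQ : 0 < volume Q := by
    rw [hQ, volume_pi, Measure.pi_pi]
    simp only [Real.volume_Ico, add_sub_cancel_left, Finset.prod_const]
    exact ENNReal.pow_pos (ENNReal.ofReal_pos.2 hδ0) _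
  obtain ⟨z, hz0, s, hs, t, ht, hst⟩ := blichfeldt A hdet (hCm.union hQm) (by
    rw [measure_union hdisj hQm, hvolC]
    exact ENNReal.lt_add_right ENNReal.one_ne_top hvolQ.ne')
  obtain ⟨k, hk⟩ := hpack z hz0
  rw [← hst, Pi.sub_apply] at hk
  rcases hs with hs | hs <;> rcases ht with ht | ht
  · have h1 := hs k (mem_univ k); have h2 := ht k (mem_univ k)
    have : |s k - t k| < 1 := by
      rw [abs_lt]; constructor <;> linarith [h1.1, h1.2, h2.1, h2.2]
    linarith
  · apply key (-z) t ht s hs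
    rw [cast_neg, Matrix.mulVec_neg, ← hst]; abel
  · exact key z s hs t ht hst
  · have h1 := hs k (mem_univ k); have h2 := ht k (mem_univ k)
    have : |s k - t k| < 1 := by
      rw [abs_lt]; constructor <;> linarith [h1.1, h1.2, h2.1, h2.2]
    linarith

/-- If the lattice `A ℤ^n` of covolume one has no nonzero point in the open simplex
`{y | -1 < y i, ∑ y i < 1}`, then it contains the unit vectors. -/
theorem exists_unit_vector (A : Matrix (Fin n) (Fin n) ℝ) (hdet : |A.det| = 1)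
    (H : ∀ z : Fin n → ℤ, z ≠ 0 → (∃ i, (A *ᵥ cast z) i ≤ -1) ∨ 1 ≤ ∑ i, (A *ᵥ cast z) i)
    (i : Fin n) : ∃ z : Fin n → ℤ, A *ᵥ cast z = Pi.single i 1 := by
  have hpack : ∀ z : Fin n → ℤ, z ≠ 0 → ∃ k, 1 ≤ |(A *ᵥ cast z) k| := by
    intro z hz
    by_contra hcon
    push Not at hcon
    have h1 : 1 ≤ ∑ i, (A *ᵥ cast z) i := by
      rcases H z hz with ⟨k, hk⟩ | h
      · have := (abs_lt.1 (hcon k)).1; linarith
      · exact h
    have h2 : 1 ≤ ∑ i, (A *ᵥ cast (-z)) i := by
      rcases H (-z) (neg_ne_zero.2 hz) with ⟨k, hk⟩ | h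
      · rw [cast_neg, Matrix.mulVec_neg, Pi.neg_apply] at hk
        have := (abs_lt.1 (hcon k)).2; linarith
      · exact h
    rw [cast_neg, Matrix.mulVec_neg] at h2
    simp only [Pi.neg_apply, Finset.sum_neg_distrib] at h2
    linarith
  obtain ⟨z, hz⟩ := cube_cover A hdet hpack (Pi.single i 1)
  refine ⟨z, ?_⟩
  set y := A *ᵥ cast z with hy
  have hyi : y i ≤ 1 ∧ 1 < y i + 1 := by simpa using hz i
  have hyk : ∀ k, k ≠ i → y k ≤ 0 ∧ 0 < y k + 1 := by
    intro k hk
    have := hz k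
    simpa [Pi.single_eq_of_ne hk] using this
  have hz0 : z ≠ 0 := by
    intro h
    have : y = 0 := by rw [hy, h, cast_zero, Matrix.mulVec_zero]
    have h2 := hyi.2
    rw [this] at h2
    simp at h2
  have hyi1 : y i = 1 := by
    by_contra hne
    have hlt : y i < 1 := lt_of_le_of_ne hyi.1 hne
    obtain ⟨k, hk⟩ := hpack z hz0
    rw [← hy] at hk
    by_cases hki : k = i
    · subst hki
      have : |y k| < 1 := by rw [abs_lt]; constructor <;> linarith [hyi.2]
      linarith
    · have h1 := hyk k hki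
      have : |y k| < 1 := by rw [abs_lt]; constructor <;> linarith [h1.1, h1.2]
      linarith
  have hsum : 1 ≤ ∑ k, y k := by
    rcases H z hz0 with ⟨k, hk⟩ | h
    · rw [← hy] at hk
      by_cases hki : k = i
      · subst hki; linarith
      · have h1 := hyk k hki; linarith [h1.2]
    · exact h
  have hsplit : ∑ k, y k = y i + ∑ k ∈ Finset.univ.erase i, y k :=
    (Finset.add_sum_erase _ _ (Finset.mem_univ i)).symm
  have hrest : ∑ k ∈ Finset.univ.erase i, y k = 0 := by
    have h1 : ∑ k ∈ Finset.univ.erase i, y k ≤ 0 :=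
      Finset.sum_nonpos fun k hk => (hyk k (Finset.ne_of_mem_erase hk)).1
    rw [hsplit, hyi1] at hsum
    linarith
  have hzero : ∀ k ∈ Finset.univ.erase i, y k = 0 :=
    (Finset.sum_eq_zero_iff_of_nonpos fun k hk => (hyk k (Finset.ne_of_mem_erase hk)).1).1 hrest
  funext k
  by_cases hki : k = i
  · subst hki; simpa using hyi1
  · rw [Pi.single_eq_of_ne hki]
    exact hzero k (Finset.mem_erase.2 ⟨hki, Finset.mem_univ k⟩)

/-- Under the same hypotheses the matrix is an integer matrix with unit determinant. -/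
theorem exists_int_matrix (A : Matrix (Fin n) (Fin n) ℝ) (hdet : |A.det| = 1)
    (H : ∀ z : Fin n → ℤ, z ≠ 0 → (∃ i, (A *ᵥ cast z) i ≤ -1) ∨ 1 ≤ ∑ i, (A *ᵥ cast z) i) :
    ∃ B : Matrix (Fin n) (Fin n) ℤ, IsUnit B.det ∧ A = B.map (Int.cast : ℤ → ℝ) := by
  choose z hz using exists_unit_vector A hdet H
  -- the inverse matrix
  set C : Matrix (Fin n) (Fin n) ℤ := Matrix.of fun i j => z j i with hC
  set CR : Matrix (Fin n) (Fin n) ℝ := C.map (Int.cast : ℤ → ℝ) with hCR
  have hAC : A * CR = 1 := by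
    ext i j
    have h1 := congrFun (hz j) i
    rw [Matrix.mul_apply]
    have h2 : (A *ᵥ cast (z j)) i = ∑ k, A i k * CR k j := rfl
    rw [← h2, h1, Matrix.one_apply, Pi.single_apply]
  have hdetC : (C.det : ℝ) = CR.det := by
    have := (Int.castRingHom ℝ).map_det C
    simpa using this
  have hprod : A.det * CR.det = 1 := by rw [← Matrix.det_mul, hAC, Matrix.det_one]
  have habs : |CR.det| = 1 := by
    have := congrArg abs hprod
    rw [abs_mul, hdet, one_mul, abs_one] at this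
    exact this
  have hCunit : IsUnit C.det := by
    rw [Int.isUnit_iff]
    rw [← hdetC] at habs
    have h3 : |C.det| = 1 := by exact_mod_cast habs
    exact eq_or_eq_neg_of_abs_eq h3
  refine ⟨C⁻¹, ?_, ?_⟩
  · exact Matrix.isUnit_nonsing_inv_det C hCunit
  · have hCinv : CR * (C⁻¹).map (Int.cast : ℤ → ℝ) = 1 := by
      have h4 : C * C⁻¹ = 1 := Matrix.mul_nonsing_inv C hCunit
      have h6 : (C * C⁻¹).map (Int.cast : ℤ → ℝ) = CR * (C⁻¹).map (Int.cast : ℤ → ℝ) := by
        rw [hCR]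
        exact Matrix.map_mul (f := Int.castRingHom ℝ)
      rw [← h6, h4]
      exact Matrix.map_one _ (by simp) (by simp)
    calc A = A * (CR * (C⁻¹).map (Int.cast : ℤ → ℝ)) := by rw [hCinv, mul_one]
      _ = (A * CR) * (C⁻¹).map (Int.cast : ℤ → ℝ) := by rw [Matrix.mul_assoc]
      _ = (C⁻¹).map (Int.cast : ℤ → ℝ) := by rw [hAC, one_mul]

end Pool.Agent.Lib.H38.Ehr
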