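import Mathlib

set_option autoImplicit false

/-!
# The centroid is an interior point; the ratio invariant
-/

namespace Pool.Agent.Lib.H38.Ehr

open MeasureTheory Set Filter Topology

variable {n : ℕ}

theorem centroid_mem_interior {K : Set (Fin n → ℝ)} (hK : IsCompact K) (hc : Convex ℝ K)
    (h0 : (0 : Fin n → ℝ) ∈ interior K) {b : Fin n → ℝ}
    (hb : b = (volume.real K)⁻¹ • ∫ x in K, x) : b ∈ interior K := by
  obtain ⟨ε, hε, hball⟩ := Metric.isOpen_iff.1 isOpen_interior 0 h0
  set t : Set (Fin n → ℝ) := Metric.closedBall 0 (ε / 2) with ht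
  have htint : t ⊆ interior K :=
    (Metric.closedBall_subset_ball (by linarith : ε / 2 < ε)).trans hball
  have htK : t ⊆ K := htint.trans interior_subset
  haveI : IsFiniteMeasure (volume.restrict K) := ⟨by
    rw [Measure.restrict_apply_univ]; exact hK.measure_lt_top⟩
  have hint : IntegrableOn (fun x : Fin n → ℝ => x) K volume :=
    (continuous_id.continuousOn).integrableOn_compact hK
  have hpos : volume t ≠ 0 := by
    have : 0 < volume (Metric.ball (0 : Fin n → ℝ) (ε / 2)) :=
      Metric.isOpen_ball.measure_pos _ ⟨0, Metric.mem_ball_self (by positivity)⟩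
    exact (lt_of_lt_of_le this (measure_mono Metric.ball_subset_closedBall)).ne'
  have htm : MeasurableSet t := Metric.isClosed_closedBall.measurableSet
  have hrr : (volume.restrict K).restrict t = volume.restrict t := by
    rw [Measure.restrict_restrict htm, inter_eq_self_of_subset_left htK]
  have h1 : (volume.restrict K) t ≠ 0 := by
    rw [Measure.restrict_apply htm, inter_eq_self_of_subset_left htK]; exact hpos
  have h2 : (⨍ x in t, (fun x : Fin n → ℝ => x) x ∂(volume.restrict K)) ∈ interior K := by
    rw [hrr]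
    refine htint ?_
    refine (convex_closedBall (0 : Fin n → ℝ) (ε / 2)).set_average_mem
      Metric.isClosed_closedBall hpos ?_ ?_ ?_
    · exact (isCompact_closedBall _ _).measure_lt_top.ne
    · exact ae_restrict_mem htm
    · exact hint.mono_set htK
  have h3 := hc.average_mem_interior_of_set (μ := volume.restrict K) (f := fun x => x) h1
    (ae_restrict_mem hK.measurableSet) hint h2
  rw [average_eq, Measure.real, Measure.restrict_apply_univ] at h3
  rw [hb]
  exact h3

/-- The ratio invariant and its main property. -/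
theorem ratio {K : Set (Fin n → ℝ)} (hK : IsCompact K) (hc : Convex ℝ K)
    (h0 : (0 : Fin n → ℝ) ∈ interior K) {b : Fin n → ℝ}
    {R : ℝ} (hR0 : b = 0 → R = 1)
    (hR1 : ∀ t : ℝ, 0 ≤ t → b ≠ 0 → b - t • b ∈ frontier K →
        R = dist (b - t • b) 0 / dist (b - t • b) b) :
    0 < R ∧ R ≤ 1 ∧ ∀ c, 0 < c → c < R → ∀ y ∈ K, c • (y - b) ∈ interior K := by
  by_cases hb0 : b = 0
  · rw [hR0 hb0]
    refine ⟨one_pos, le_rfl, fun c hc0 hc1 y hy => ?_⟩
    rw [hb0, sub_zero]
    have := hc.combo_interior_self_mem_interior h0 hy (show (0 : ℝ) < 1 - c by linarith)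
      hc0.le (by ring)
    simpa using this
  · -- the exit time
    set S : Set ℝ := {s | 0 ≤ s ∧ b - s • b ∈ K} with hS
    have hbn : 0 < ‖b‖ := norm_pos_iff.2 hb0
    have hScont : Continuous (fun s : ℝ => b - s • b) := by fun_prop
    have hSclosed : IsClosed S := by
      have : S = Ici 0 ∩ (fun s : ℝ => b - s • b) ⁻¹' K := rfl
      rw [this]
      exact isClosed_Ici.inter (hK.isClosed.preimage hScont)
    obtain ⟨M, hM⟩ := hK.isBounded.subset_closedBall (0 : Fin n → ℝ)
    have hSbdd : BddAbove S := by
      refine ⟨(M + ‖b‖) / ‖b‖, fun s hs => ?_⟩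
      rw [le_div_iff₀ hbn]
      have h1 := hM hs.2
      rw [mem_closedBall_zero_iff] at h1
      have h2 : s * ‖b‖ = ‖s • b‖ := by
        rw [norm_smul, Real.norm_of_nonneg hs.1]
      rw [h2]
      calc ‖s • b‖ = ‖b - (b - s • b)‖ := by congr 1; abel
        _ ≤ ‖b‖ + ‖b - s • b‖ := norm_sub_le _ _
        _ ≤ _ := by linarith
    have h1S : (1 : ℝ) ∈ S := ⟨zero_le_one, by
      rw [one_smul, sub_self]; exact interior_subset h0⟩
    set t := sSup S with ht
    have htS : t ∈ S := hSclosed.csSup_mem ⟨1, h1S⟩ hSbdd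
    have hout : ∀ s ∈ S, b - s • b ∈ interior K → s < t := by
      intro s hs hsi
      have h1 : ∀ᶠ r in 𝓝 s, b - r • b ∈ interior K :=
        hScont.continuousAt.eventually (isOpen_interior.mem_nhds hsi)
      obtain ⟨δ, hδ, hδ'⟩ := Metric.eventually_nhds_iff.1 h1
      have h2 : s + δ / 2 ∈ S := ⟨by have := hs.1; linarith, interior_subset (hδ' (by
        rw [Real.dist_eq, add_sub_cancel_left, abs_of_pos (by positivity)]; linarith))⟩
      have := le_csSup hSbdd h2
      linarith
    have ht1 : 1 < t := hout 1 h1S (by rw [one_smul, sub_self]; exact h0)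
    have hfr : b - t • b ∈ frontier K := by
      rw [hK.isClosed.frontier_eq]
      refine ⟨htS.2, fun hcon => ?_⟩
      exact lt_irrefl t (hout t htS hcon)
    have hRt := hR1 t (by linarith) hb0 hfr
    have hR : R = (t - 1) / t := by
      rw [hRt, dist_zero_right, dist_eq_norm]
      have e1 : b - t • b = (1 - t) • b := by rw [sub_smul, one_smul]
      have e2 : b - t • b - b = (-t) • b := by rw [neg_smul]; abel
      rw [e2, e1, norm_smul, norm_smul, Real.norm_eq_abs, Real.norm_eq_abs, abs_neg,
        abs_of_neg (by linarith : 1 - t < 0), abs_of_pos (by linarith : 0 < t),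
        mul_div_mul_right _ _ hbn.ne']
      ring
    have ht0 : 0 < t := by linarith
    have hRpos : 0 < R := by rw [hR]; exact div_pos (by linarith) ht0
    have hR1' : R < 1 := by rw [hR, div_lt_one ht0]; linarith
    refine ⟨hRpos, hR1'.le, fun c hc0 hc1 y hy => ?_⟩
    have hz : R • y + (1 - R) • (b - t • b) ∈ K :=
      hc hy htS.2 hRpos.le (by linarith) (by ring)
    have h1 := hc.combo_interior_self_mem_interior h0 hz
      (show (0 : ℝ) < 1 - c / R by
        have : c / R < 1 := (div_lt_one hRpos).2 hc1
        linarith)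
      (show 0 ≤ c / R by positivity) (by ring)
    have h2 : (1 - c / R) • (0 : Fin n → ℝ) + (c / R) • (R • y + (1 - R) • (b - t • b)) =
        c • (y - b) := by
      rw [smul_zero, zero_add]
      funext i
      simp only [Pi.smul_apply, Pi.add_apply, Pi.sub_apply, smul_eq_mul]
      have e : (1 - R) * (b i - t * b i) = - R * b i := by
        rw [hR]; field_simp; ring
      rw [e]
      field_simp
      ring
    rw [← h2]
    exact h1

end Pool.Agent.Lib.H38.Ehr
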