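import Mathlib

set_option autoImplicit false

/-!
# The simplex `{y ≥ 0, ∑ y ≤ c}`: volume and centroid
-/

namespace Pool.Agent.Lib.H38.Ehr

open MeasureTheory Set Filter Topology
open scoped Matrix

/-- the simplex -/
def stdS (n : ℕ) (c : ℝ) : Set (Fin n → ℝ) := {y | (∀ i, 0 ≤ y i) ∧ ∑ i, y i ≤ c}

variable {n : ℕ}

lemma isClosed_stdS (n : ℕ) (c : ℝ) : IsClosed (stdS n c) := by
  have : stdS n c = (⋂ i, {y : Fin n → ℝ | 0 ≤ y i}) ∩ {y | ∑ i, y i ≤ c} := by
    ext y; simp [stdS]
  rw [this]
  refine (isClosed_iInter fun i => ?_).inter ?_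
  · exact isClosed_le continuous_const (continuous_apply i)
  · exact isClosed_le (by fun_prop) continuous_const

theorem volume_stdS : ∀ (n : ℕ) (c : ℝ), 0 ≤ c →
    volume (stdS n c) = ENNReal.ofReal (c ^ n / n.factorial) := by
  intro n
  induction n with
  | zero =>
    intro c hc
    have h : stdS 0 c = univ := by
      ext y; simp [stdS, hc]
    rw [h, volume_pi, Measure.pi_of_empty (fun _ => volume) (fun i => i.elim0)]
    simp
  | succ n ih =>
    intro c hc
    have hmp := volume_preserving_piFinSuccAbove (fun _ : Fin (n + 1) => ℝ) 0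
    set e := MeasurableEquiv.piFinSuccAbove (fun _ : Fin (n + 1) => ℝ) 0 with he
    set S' : Set (ℝ × (Fin n → ℝ)) := {p | (0 ≤ p.1 ∧ ∀ i, 0 ≤ p.2 i) ∧ p.1 + ∑ i, p.2 i ≤ c}
      with hS'
    have hclosed : IsClosed S' := by
      have : S' = ({p : ℝ × (Fin n → ℝ) | 0 ≤ p.1} ∩ (⋂ i, {p : ℝ × (Fin n → ℝ) | 0 ≤ p.2 i})) ∩
          {p | p.1 + ∑ i, p.2 i ≤ c} := by
        ext p; simp [hS']
      rw [this]
      refine ((isClosed_le continuous_const continuous_fst).inter
        (isClosed_iInter fun i => ?_)).inter ?_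
      · exact isClosed_le continuous_const (by fun_prop)
      · exact isClosed_le (by fun_prop) continuous_const
    have hpre : e ⁻¹' S' = stdS (n + 1) c := by
      ext y
      simp only [mem_preimage, hS', mem_ofPred_eq, stdS, he,
        MeasurableEquiv.piFinSuccAbove_apply, Fin.forall_fin_succ, Fin.sum_univ_succ]
      rfl
    rw [← hpre, hmp.measure_preimage hclosed.measurableSet.nullMeasurableSet,
      Measure.volume_eq_prod, Measure.prod_apply hclosed.measurableSet]
    have hslice : ∀ t : ℝ, volume (Prod.mk t ⁻¹' S') =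
        (Icc 0 c).indicator (fun t => ENNReal.ofReal ((c - t) ^ n / n.factorial)) t := by
      intro t
      by_cases ht : t ∈ Icc 0 c
      · rw [indicator_of_mem ht, ← ih (c - t) (by linarith [ht.2])]
        congr 1
        ext y
        simp only [mem_preimage, hS', mem_ofPred_eq, stdS]
        constructor
        · rintro ⟨⟨_, h2⟩, h3⟩; exact ⟨h2, by linarith⟩
        · rintro ⟨h2, h3⟩; exact ⟨⟨ht.1, h2⟩, by linarith⟩
      · rw [indicator_of_notMem ht]
        have : Prod.mk t ⁻¹' S' = ∅ := by
          ext y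
          simp only [mem_preimage, hS', mem_ofPred_eq, mem_empty_iff_false, iff_false]
          rintro ⟨⟨h1, h2⟩, h3⟩
          refine ht ⟨h1, ?_⟩
          have : 0 ≤ ∑ i, y i := Finset.sum_nonneg fun i _ => h2 i
          linarith
        rw [this, measure_empty]
    simp_rw [hslice]
    rw [lintegral_indicator measurableSet_Icc,
      ← ofReal_integral_eq_lintegral_ofReal]
    · congr 1
      rw [integral_Icc_eq_integral_Ioc, ← intervalIntegral.integral_of_le hc]
      have h1 : ∀ x ∈ uIcc 0 c, HasDerivAt (fun t : ℝ => - (c - t) ^ (n + 1) /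
          ((n + 1).factorial : ℝ)) ((c - x) ^ n / (n.factorial : ℝ)) x := by
        intro x _
        have h2 : HasDerivAt (fun t : ℝ => (c - t) ^ (n + 1)) ((n + 1 : ℕ) * (c - x) ^ n * (-1)) x := by
          have := ((hasDerivAt_id x).const_sub c).fun_pow (n + 1)
          simpa using this
        have h3 : HasDerivAt (fun t : ℝ => - (c - t) ^ (n + 1) / ((n + 1).factorial : ℝ))
            (-((n + 1 : ℕ) * (c - x) ^ n * (-1)) / ((n + 1).factorial : ℝ)) x :=
          (h2.fun_neg).div_const ((n + 1).factorial : ℝ)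
        refine h3.congr_deriv ?_
        rw [Nat.factorial_succ]
        push_cast
        have : (n.factorial : ℝ) ≠ 0 := by exact_mod_cast n.factorial_ne_zero
        field_simp
      rw [intervalIntegral.integral_eq_sub_of_hasDerivAt h1 (by
        apply Continuous.intervalIntegrable; fun_prop)]
      simp
      ring
    · exact (Continuous.continuousOn (by fun_prop)).integrableOn_Icc
    · filter_upwards [ae_restrict_mem measurableSet_Icc] with t ht
      have : 0 ≤ c - t := by linarith [ht.2]
      positivity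

lemma volume_real_stdS (n : ℕ) {c : ℝ} (hc : 0 ≤ c) :
    volume.real (stdS n c) = c ^ n / n.factorial := by
  rw [Measure.real, volume_stdS n c hc, ENNReal.toReal_ofReal (by positivity)]

/-- change of variables -/
theorem integral_image_aff (M : Matrix (Fin n) (Fin n) ℝ) (hM : M.det ≠ 0) (c : Fin n → ℝ)
    {S : Set (Fin n → ℝ)} (hS : MeasurableSet S) (g : (Fin n → ℝ) → ℝ) :
    ∫ y in (fun x => M *ᵥ x + c) '' S, g y = |M.det| * ∫ x in S, g (M *ᵥ x + c) := by
  set f : (Fin n → ℝ) →L[ℝ] (Fin n → ℝ) := LinearMap.toContinuousLinearMap (Matrix.toLin' M) with hf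
  have hfM : ∀ x, f x = M *ᵥ x := fun x => rfl
  have hdet : f.det = M.det := by
    have : f.det = LinearMap.det (Matrix.toLin' M) := rfl
    rw [this, LinearMap.det_toLin']
  have hinj : Function.Injective fun x => M *ᵥ x + c := by
    intro x y hxy
    have h1 : M *ᵥ x = M *ᵥ y := add_right_cancel hxy
    have h2 : M *ᵥ (x - y) = 0 := by rw [Matrix.mulVec_sub, h1, sub_self]
    by_contra hne
    exact hM (Matrix.exists_mulVec_eq_zero_iff.1 ⟨x - y, sub_ne_zero.2 hne, h2⟩)
  have h1 := integral_image_eq_integral_abs_det_fderiv_smul (volume : Measure (Fin n → ℝ))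
    hS (f := fun x => M *ᵥ x + c) (f' := fun _ => f)
    (fun x _ => by
      have h2 : HasFDerivAt (fun x => f x + c) f x := (f.hasFDerivAt).add_const c
      exact h2.hasFDerivWithinAt)
    hinj.injOn g
  rw [h1]
  simp only [smul_eq_mul]
  rw [integral_const_mul, hdet]

theorem volume_real_image_aff (M : Matrix (Fin n) (Fin n) ℝ) (hM : M.det ≠ 0) (c : Fin n → ℝ)
    {S : Set (Fin n → ℝ)} (hS : MeasurableSet S) :
    volume.real ((fun x => M *ᵥ x + c) '' S) = |M.det| * volume.real S := by
  have := integral_image_aff M hM c hS (fun _ => 1)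
  simpa using this

/-- The centroid of the simplex. -/
theorem integral_stdS (i : Fin n) :
    ∫ y in stdS n (n + 1), y i = volume.real (stdS n (n + 1)) := by
  set S := stdS n ((n : ℝ) + 1) with hS
  set V := volume.real S with hV
  have hSm : MeasurableSet S := (isClosed_stdS _ _).measurableSet
  have hScomp : IsCompact S := by
    refine Metric.isCompact_of_isClosed_isBounded (isClosed_stdS _ _) ?_
    refine (Metric.isBounded_closedBall (x := (0 : Fin n → ℝ)) (r := n + 1)).subset ?_
    intro y hy
    rw [mem_closedBall_zero_iff, pi_norm_le_iff_of_nonneg (by positivity)]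
    intro j
    rw [Real.norm_of_nonneg (hy.1 j)]
    exact (Finset.single_le_sum (fun k _ => hy.1 k) (Finset.mem_univ j)).trans hy.2
  have hint : ∀ j, IntegrableOn (fun y : Fin n → ℝ => y j) S volume := fun j =>
    (continuous_apply j).continuousOn.integrableOn_compact hScomp
  have hconst : ∀ a : ℝ, IntegrableOn (fun _ : Fin n → ℝ => a) S volume := fun a =>
    continuous_const.continuousOn.integrableOn_compact hScomp
  -- the swapping map
  have key : ∀ k : Fin n, ∫ y in S, y k = ((n : ℝ) + 1) * V - ∑ j, ∫ y in S, y j := by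
    intro k
    set M : Matrix (Fin n) (Fin n) ℝ := Matrix.updateRow 1 k (fun _ => -1) with hMdef
    have hdet : M.det = -1 := by
      have h1 := congrFun (congrArg (fun f => f (fun _ : Fin n => (-1 : ℝ)))
        (congrArg DFunLike.coe (Matrix.cramer_one (n := Fin n) (α := ℝ)))) k
      simp only [Matrix.cramer_apply] at h1
      rw [← Matrix.det_transpose, hMdef, ← Matrix.updateCol_transpose, Matrix.transpose_one, h1]
      simp
    have hM : M.det ≠ 0 := by rw [hdet]; norm_num
    set c : Fin n → ℝ := Pi.single k ((n : ℝ) + 1) with hc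
    have hk : ∀ y : Fin n → ℝ, (M *ᵥ y + c) k = (n + 1) - ∑ j, y j := by
      intro y
      simp [hMdef, hc, Matrix.mulVec, dotProduct]
      ring
    have hj : ∀ (y : Fin n → ℝ) (j : Fin n), j ≠ k → (M *ᵥ y + c) j = y j := by
      intro y j hjk
      simp [hMdef, hc, Matrix.mulVec, dotProduct, Matrix.updateRow_ne hjk, Pi.single_eq_of_ne hjk,
        Matrix.one_apply]
    have hsum : ∀ y : Fin n → ℝ, ∑ j, (M *ᵥ y + c) j = (n + 1) - y k := by
      intro y
      rw [← Finset.add_sum_erase _ _ (Finset.mem_univ k), hk,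
        Finset.sum_congr rfl (fun j hjm => hj y j (Finset.ne_of_mem_erase hjm)),
        ← Finset.add_sum_erase _ _ (Finset.mem_univ k)]
      ring
    have hmaps : ∀ y ∈ S, M *ᵥ y + c ∈ S := by
      intro y hy
      refine ⟨fun j => ?_, ?_⟩
      · by_cases hjk : j = k
        · rw [hjk, hk]; linarith [hy.2]
        · rw [hj y j hjk]; exact hy.1 j
      · rw [hsum]; linarith [hy.1 k]
    have hinv : ∀ y : Fin n → ℝ, M *ᵥ (M *ᵥ y + c) + c = y := by
      intro y
      funext j
      by_cases hjk : j = k
      · rw [hjk, hk, hsum]; ring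
      · rw [hj _ j hjk, hj y j hjk]
    have himg : (fun y => M *ᵥ y + c) '' S = S := by
      ext y
      constructor
      · rintro ⟨x, hx, rfl⟩; exact hmaps x hx
      · intro hy; exact ⟨_, hmaps y hy, hinv y⟩
    have h1 := integral_image_aff M hM c hSm (fun y => y k)
    rw [himg, hdet] at h1
    rw [h1]
    simp only [hk, abs_neg, abs_one, one_mul]
    rw [integral_sub (hconst _) (integrable_finsetSum _ fun j _ => hint j),
      integral_finsetSum _ fun j _ => hint j, setIntegral_const, smul_eq_mul]
    ring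
  have h2 : ∑ j, ∫ y in S, y j = (n : ℝ) * ∫ y in S, y i := by
    rw [Finset.sum_congr rfl fun j _ => (key j).trans (key i).symm]
    simp
  have h3 := key i
  rw [h2] at h3
  have h4 : ((n : ℝ) + 1) * ∫ y in S, y i = (n + 1) * V := by linarith
  exact mul_left_cancel₀ (by positivity) h4

end Pool.Agent.Lib.H38.Ehr
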